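import Pool.Agent.H33.PS.BDegP
import Pool.Agent.H11.TH.IfaceK

/-!
# THEOREM PS (MP_187c26_nt), module FinP: finitely generated groups `Λ`

`poly_O`: `Λ ⊂ Kˣ` finitely generated (model `final_O` in H92/SR/FinalO). `poly_S`: `Λ ⊂ Ωˣ` (model `final_S` in H92/SR/FinalS, over the
number field generated by `Λ`). `poly_lehmer`: `c ≤ dg (N₀ K Λ S) γ ^ (12 * 2^s + 2) * h(γ)` for all `γ` no power of which is in `Λ`, where
`s` is the rank of `Λ`.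
-/

set_option autoImplicit false
set_option linter.unusedSectionVars false

open NumberField IntermediateField

namespace Pool.Agent.H33.PS

open Pool.Agent.H72.RM Pool.Agent.H72.RG Pool.Agent.H72.PB Pool.Agent.H92.SR Pool.Agent.H11.TH

variable {K Ω : Type} [Field K] [NumberField K] [Field Ω] [CharZero Ω] [IsAlgClosed Ω]
  [Algebra K Ω] [IsGalois K Ω]

private theorem fo_prod {r : ℕ} (b : Fin r → Kˣ) (m : Fin r → ℤ) :
    algebraMap K Ω (((∏ i, b i ^ (m i) : Kˣ)) : K) =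
      ∏ i, (algebraMap K Ω ((b i : Kˣ) : K)) ^ (m i) := by
  rw [Units.coe_prod, map_prod]
  refine Finset.prod_congr rfl fun i _ => ?_
  rw [Units.val_zpow_eq_zpow_val, map_zpow₀]

/-- an element of `Λ` is a root of unity times a product of powers of the `b i` -/
private theorem fo_dec {r : ℕ} (Λ Λ' : Subgroup Kˣ)
    (hΛ' : ∀ x : Kˣ, x ∈ Λ' ↔ ∃ N : ℕ, 1 ≤ N ∧ x ^ N ∈ Λ) (b : Fin r → Kˣ)
    (hgen : ∀ x ∈ Λ', ∃ m : Fin r → ℤ, IsOfFinOrder (x * (∏ i, b i ^ (m i))⁻¹))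
    {u : Kˣ} (hu : u ∈ Λ) :
    ∃ (m : Fin r → ℤ) (w : Ω) (k : ℕ), 1 ≤ k ∧ w ^ k = 1 ∧
      algebraMap K Ω ((u : Kˣ) : K) = w * ∏ i, (algebraMap K Ω ((b i : Kˣ) : K)) ^ (m i) := by
  have hu' : u ∈ Λ' := (hΛ' u).2 ⟨1, le_rfl, by rwa [pow_one]⟩
  obtain ⟨m, hm⟩ := hgen u hu'
  obtain ⟨k, hk, hk1⟩ := isOfFinOrder_iff_pow_eq_one.1 hm
  obtain ⟨v, hv⟩ : ∃ v, v = u * (∏ i, b i ^ (m i))⁻¹ := ⟨_, rfl⟩
  rw [← hv] at hk1
  have huv : u = v * ∏ i, b i ^ (m i) := by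
    rw [hv, inv_mul_cancel_right]
  refine ⟨m, algebraMap K Ω ((v : Kˣ) : K), k, hk, ?_, ?_⟩
  · rw [← map_pow, ← Units.val_pow_eq_pow_val, hk1, Units.val_one, map_one]
  · rw [← fo_prod, ← map_mul, ← Units.val_mul, ← huv]

private theorem fo_sg {r : ℕ} (Λ Λ' : Subgroup Kˣ)
    (hΛ' : ∀ x : Kˣ, x ∈ Λ' ↔ ∃ N : ℕ, 1 ≤ N ∧ x ^ N ∈ Λ) (b : Fin r → Kˣ)
    (hgen : ∀ x ∈ Λ', ∃ m : Fin r → ℤ, IsOfFinOrder (x * (∏ i, b i ^ (m i))⁻¹))
    (S : Finset ℕ) (T : Set Ω)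
    (hT : T = {x : Ω | ∃ u ∈ Λ, x = algebraMap K Ω ((u : Kˣ) : K)}) :
    SG T S ⊆ GammaS Ω (fun i => ((b i : Kˣ) : K)) (S : Set ℕ) := by
  rintro x ⟨N, hN, hNS, t, ⟨n, hn, htn⟩, hx⟩
  rw [hT] at hx
  obtain ⟨u, hu, hxu⟩ := hx
  obtain ⟨m, w, k, hk, hw, huw⟩ := fo_dec (Ω := Ω) Λ Λ' hΛ' b hgen hu
  have hw0 : w ≠ 0 := by
    rintro rfl
    rw [zero_pow (by omega)] at hw
    exact zero_ne_one hw
  refine ⟨N, hN, hNS, t * w⁻¹, ⟨n * k, Nat.mul_pos hn hk, ?_⟩, m, ?_⟩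
  · rw [mul_pow, pow_mul, htn, one_pow, one_mul, inv_pow, mul_comm n k, pow_mul, hw, one_pow,
      inv_one]
  · rw [← mul_assoc, hxu, huw, mul_comm w, mul_inv_cancel_right₀ hw0]

private theorem fo_dg {r : ℕ} (Λ Λ' : Subgroup Kˣ)
    (hΛ' : ∀ x : Kˣ, x ∈ Λ' ↔ ∃ N : ℕ, 1 ≤ N ∧ x ^ N ∈ Λ) (b : Fin r → Kˣ)
    (hgen : ∀ x ∈ Λ', ∃ m : Fin r → ℤ, IsOfFinOrder (x * (∏ i, b i ^ (m i))⁻¹))
    (T : Set Ω) (hT : T = {x : Ω | ∃ u ∈ Λ, x = algebraMap K Ω ((u : Kˣ) : K)}) :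
    DG T ⊆ DivG Ω (fun i => ((b i : Kˣ) : K)) := by
  rintro x ⟨n, hn, hx⟩
  rw [hT] at hx
  obtain ⟨u, hu, hxu⟩ := hx
  obtain ⟨m, w, k, hk, hw, huw⟩ := fo_dec (Ω := Ω) Λ Λ' hΛ' b hgen hu
  refine ⟨n * k, Nat.mul_pos hn hk, fun i => m i * (k : ℤ), ?_⟩
  rw [pow_mul, hxu, huw, mul_pow, hw, one_mul, ← Finset.prod_pow]
  refine Finset.prod_congr rfl fun i _ => ?_
  rw [zpow_mul, zpow_natCast]

private theorem fo_div {r : ℕ} (Λ Λ' : Subgroup Kˣ)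
    (hΛ' : ∀ x : Kˣ, x ∈ Λ' ↔ ∃ N : ℕ, 1 ≤ N ∧ x ^ N ∈ Λ) (b : Fin r → Kˣ)
    (hb : ∀ i, b i ∈ Λ')
    (T : Set Ω) (hT : T = {x : Ω | ∃ u ∈ Λ, x = algebraMap K Ω ((u : Kˣ) : K)}) :
    DivG Ω (fun i => ((b i : Kˣ) : K)) ⊆ DG T := by
  rintro x ⟨N, hN, m, hx⟩
  have h1 : ∏ i, b i ^ (m i) ∈ Λ' := Subgroup.prod_mem _ fun i _ => Subgroup.zpow_mem _ (hb i) _
  obtain ⟨M, hM, hM1⟩ := (hΛ' _).1 h1
  refine ⟨N * M, Nat.mul_pos hN hM, ?_⟩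
  rw [hT]
  refine ⟨_, hM1, ?_⟩
  rw [pow_mul, hx, Units.val_pow_eq_pow_val, map_pow, fo_prod]

private theorem fo_poldeg {A : Set Ω} {L : IntermediateField K Ω}
    (hAL : IntermediateField.adjoin K A ≤ L) {d : ℕ} {x : Ω}
    (h : PolDeg ((IntermediateField.adjoin K A : IntermediateField K Ω) : Set Ω) d x) :
    dg L x ≤ d := by
  obtain ⟨Q, hQ, hQd, hQc, hQ0⟩ := h
  exact (dg_le_of_poly Q hQ (fun i => hAL (hQc i)) hQ0).trans hQd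

private theorem fg_fin {G : Type} [CommGroup G] (Λ : Subgroup G) (hΛ : Λ.FG) :
    Module.Finite ℤ (Additive Λ) := by
  rw [Module.Finite.iff_addGroup_fg, ← GroupFG.iff_add_fg, Group.fg_iff_subgroup_fg]
  exact hΛ

/-- multiplicatively independent elements with a power in `Λ`: at most the rank of `Λ` many -/
private theorem rank_le {G : Type} [CommGroup G] (Λ : Subgroup G) (hΛ : Λ.FG) {r : ℕ}
    (b : Fin r → G) (hb : ∀ i, ∃ N : ℕ, 1 ≤ N ∧ b i ^ N ∈ Λ)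
    (hind : ∀ m : Fin r → ℤ, IsOfFinOrder (∏ i, b i ^ (m i)) → m = 0) :
    r ≤ Module.finrank ℤ (Additive Λ) := by
  classical
  have := fg_fin Λ hΛ
  choose N hN hmem using hb
  have hlin : LinearIndependent ℤ (fun i => Additive.ofMul (⟨b i ^ N i, hmem i⟩ : Λ)) := by
    rw [Fintype.linearIndependent_iff]
    intro m hm
    have h1 : ∏ i, b i ^ ((N i : ℤ) * m i) = 1 := by
      have h2 := congrArg (fun z : Additive Λ => ((Additive.toMul z : Λ) : G)) hm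
      simp only [toMul_sum, toMul_zsmul, toMul_ofMul, toMul_zero, Subgroup.coe_one] at h2
      rw [Subgroup.val_finsetProd] at h2
      rw [← h2]
      refine Finset.prod_congr rfl fun i _ => ?_
      rw [zpow_mul, zpow_natCast]
      rfl
    have h3 := hind (fun i => (N i : ℤ) * m i) (by rw [h1]; exact IsOfFinOrder.one)
    intro i
    have h4 := congrFun h3 i
    simp only [Pi.zero_apply, mul_eq_zero] at h4
    rcases h4 with h5 | h5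
    · have := hN i
      omega
    · exact h5
  have h6 := hlin.fintype_card_le_finrank
  rwa [Fintype.card_fin] at h6

private theorem rank_map {G H : Type} [CommGroup G] [CommGroup H] (f : G →* H)
    (hf : Function.Injective f) (Λ : Subgroup G) :
    Module.finrank ℤ (Additive Λ) = Module.finrank ℤ (Additive (Λ.map f)) :=
  LinearEquiv.finrank_eq (AddEquiv.toIntLinearEquiv
    (MulEquiv.toAdditive (Subgroup.equivMapOfInjective Λ f hf)))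

variable (Ω) in
theorem poly_O (Λ : Subgroup Kˣ) (hΛ : Λ.FG) (S : Finset ℕ) (hS : ∀ p ∈ S, p.Prime) (T : Set Ω)
    (hT : T = {x : Ω | ∃ u ∈ Λ, x = algebraMap K Ω ((u : Kˣ) : K)}) :
    ∃ c : ℝ, 0 < c ∧ ∀ w : Ω, w ≠ 0 → w ∉ DG T → ∀ D : ℕ,
      PolDeg ((IntermediateField.adjoin K (SG T S) : IntermediateField K Ω) : Set Ω) D w →
      c ≤ (D : ℝ) ^ (12 * 2 ^ Module.finrank ℤ (Additive Λ) + 2) * absLogHeight₁ w := by
  classical
  obtain ⟨Λ', hΛ'fg, hΛ'⟩ := sat_fg K Λ hΛ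
  obtain ⟨r, b, hb, hgen, hind⟩ := sat_basis Λ' hΛ'fg
  have hb0 : ∀ i, (fun i => ((b i : Kˣ) : K)) i ≠ 0 := fun i => (b i).ne_zero
  have hrs : r ≤ Module.finrank ℤ (Additive Λ) :=
    rank_le Λ hΛ b (fun i => (hΛ' _).1 (hb i)) hind
  obtain ⟨c, hc, hmain⟩ := b_poly Ω (fun i => ((b i : Kˣ) : K)) hb0
    (fun N hN m y hy i => ind_all Λ Λ' hΛ' b hb hgen hind N hN m y hy i) S hS
  have hSG : IntermediateField.adjoin K (SG T S) ≤ NS Ω (fun i => ((b i : Kˣ) : K)) S :=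
    IntermediateField.adjoin.mono K _ _ (fo_sg Λ Λ' hΛ' b hgen S T hT)
  refine ⟨c, hc, fun w hw hnd D hD => ?_⟩
  have h1 := hmain w hw (fun h => hnd (fo_div Λ Λ' hΛ' b hb T hT h))
  have h2 : dg (NS Ω (fun i => ((b i : Kˣ) : K)) S) w ≤ D := fo_poldeg hSG hD
  have h3 : 0 < dg (NS Ω (fun i => ((b i : Kˣ) : K)) S) w := dg_pos _ _
  have hD1 : (1 : ℝ) ≤ D := by exact_mod_cast (by omega : 1 ≤ D)
  refine h1.trans (mul_le_mul_of_nonneg_right ?_ (ht_nonneg _))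
  refine (pow_le_pow_left₀ (Nat.cast_nonneg _) (by exact_mod_cast h2 :
    (dg (NS Ω (fun i => ((b i : Kˣ) : K)) S) w : ℝ) ≤ (D : ℝ)) _).trans ?_
  refine pow_le_pow_right₀ hD1 ?_
  have h4 : 2 ^ r ≤ 2 ^ Module.finrank ℤ (Additive Λ) := Nat.pow_le_pow_right (by norm_num) hrs
  omega

variable (K Ω) in
theorem poly_S (Λ : Subgroup Ωˣ) (hΛ : Λ.FG) (S : Finset ℕ) (hS : ∀ p ∈ S, p.Prime) (T : Set Ω)
    (hT : T = {x : Ω | ∃ u ∈ Λ, x = ((u : Ωˣ) : Ω)}) :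
    ∃ c : ℝ, 0 < c ∧ ∀ w : Ω, w ≠ 0 → w ∉ DG T → ∀ D : ℕ,
      PolDeg ((IntermediateField.adjoin K (SG T S) : IntermediateField K Ω) : Set Ω) D w →
      c ≤ (D : ℝ) ^ (12 * 2 ^ Module.finrank ℤ (Additive Λ) + 2) * absLogHeight₁ w := by
  classical
  obtain ⟨T₁, hT₁⟩ := hΛ
  -- the field generated by `Λ`
  let K₀ : IntermediateField K Ω :=
    IntermediateField.adjoin K ((fun x : Ωˣ => (x : Ω)) '' (T₁ : Set Ωˣ))
  have hfin : FiniteDimensional K K₀ := by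
    have : Finite ((fun x : Ωˣ => (x : Ω)) '' (T₁ : Set Ωˣ)) := by
      have h1 : ((fun x : Ωˣ => (x : Ω)) '' (T₁ : Set Ωˣ)).Finite :=
        (Finset.finite_toSet T₁).image _
      exact h1.to_subtype
    exact IntermediateField.finiteDimensional_adjoin fun x _ => Algebra.IsIntegral.isIntegral x
  have hfinQ : FiniteDimensional ℚ K₀ := Module.Finite.trans K K₀
  have hNF : NumberField K₀ := { to_charZero := inferInstance, to_finiteDimensional := hfinQ }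
  have hmem : ∀ x ∈ T₁, (x : Ω) ∈ K₀ := fun x hx =>
    IntermediateField.subset_adjoin K _ ⟨x, hx, rfl⟩
  let f : K₀ˣ →* Ωˣ := Units.map (algebraMap K₀ Ω).toMonoidHom
  let lft : {y : Ωˣ // y ∈ T₁} → K₀ˣ := fun x =>
    Units.mk0 (⟨(x.1 : Ω), hmem x.1 x.2⟩ : K₀) (by
      intro h
      exact x.1.ne_zero (congrArg (fun z : K₀ => (z : Ω)) h))
  have hlft : ∀ x, f (lft x) = x.1 := by
    intro x
    apply Units.ext
    rfl
  let T₀ : Finset K₀ˣ := T₁.attach.image lft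
  let Λ₀ : Subgroup K₀ˣ := Subgroup.closure (T₀ : Set K₀ˣ)
  have hΛ₀ : Λ₀.FG := ⟨T₀, rfl⟩
  have himg : f '' (T₀ : Set K₀ˣ) = (T₁ : Set Ωˣ) := by
    ext y
    constructor
    · rintro ⟨x, hx, rfl⟩
      obtain ⟨z, -, rfl⟩ := Finset.mem_image.1 (Finset.mem_coe.1 hx)
      rw [hlft]
      exact z.2
    · intro hy
      refine ⟨lft ⟨y, hy⟩, ?_, hlft _⟩
      exact Finset.mem_coe.2 (Finset.mem_image.2 ⟨⟨y, hy⟩, Finset.mem_attach _ _, rfl⟩)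
  have hmap : Λ₀.map f = Λ := by
    rw [MonoidHom.map_closure, himg, hT₁]
  have hT' : T = {x : Ω | ∃ u ∈ Λ₀, x = algebraMap K₀ Ω ((u : K₀ˣ) : K₀)} := by
    rw [hT]
    ext x
    constructor
    · rintro ⟨u, hu, rfl⟩
      rw [← hmap] at hu
      obtain ⟨v, hv, rfl⟩ := hu
      exact ⟨v, hv, rfl⟩
    · rintro ⟨v, hv, rfl⟩
      refine ⟨f v, ?_, rfl⟩
      rw [← hmap]
      exact ⟨v, hv, rfl⟩
  have hrk : Module.finrank ℤ (Additive Λ₀) = Module.finrank ℤ (Additive Λ) := by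
    rw [← hmap]
    refine rank_map f ?_ Λ₀
    intro x y hxy
    apply Units.ext
    have h1 := congrArg (fun z : Ωˣ => (z : Ω)) hxy
    exact (algebraMap K₀ Ω).injective h1
  obtain ⟨c, hc, h⟩ := poly_O (K := K₀) Ω Λ₀ hΛ₀ S hS T hT'
  have hpol : ∀ (F G : Set Ω), F ⊆ G → ∀ (e : ℕ) (x : Ω), PolDeg F e x → PolDeg G e x := by
    rintro F G hFG e x ⟨P, h1, h2, h3, h4⟩
    exact ⟨P, h1, h2, fun i => hFG (h3 i), h4⟩
  have hadj : ∀ A B : Set Ω, A ⊆ B → ((IntermediateField.adjoin K A : IntermediateField K Ω) : Set Ω) ⊆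
      ((IntermediateField.adjoin K₀ B : IntermediateField K₀ Ω) : Set Ω) := by
    intro A B hAB
    have h1 : IntermediateField.adjoin K A ≤
        (IntermediateField.adjoin K₀ B).restrictScalars K := by
      rw [IntermediateField.adjoin_le_iff]
      intro y hy
      exact IntermediateField.subset_adjoin K₀ _ (hAB hy)
    intro x hx
    exact h1 hx
  rw [hrk] at h
  exact ⟨c, hc, fun w hw hDG D hD =>
    h w hw hDG D (hpol _ _ (hadj _ _ (Set.Subset.refl _)) _ _ hD)⟩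

private theorem poldeg_of_dg (L : IntermediateField K Ω) (F : Set Ω) (hLF : (L : Set Ω) ⊆ F)
    (y : Ω) (C : ℕ) (hC : dg L y ≤ C) : PolDeg F C y := by
  classical
  have hfin := orb_finite L y
  obtain ⟨V, hV⟩ : ∃ V : Finset Ω, (V : Set Ω) = Orb L y := ⟨hfin.toFinset, hfin.coe_toFinset⟩
  have hdg : dg L y = V.card := by
    unfold dg
    rw [← hV, Set.ncard_coe_finset]
  refine ⟨∏ x ∈ V, (Polynomial.X - Polynomial.C x), ?_, ?_, fun i => hLF (orb_poly_mem V hV i), ?_⟩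
  · exact Finset.prod_ne_zero_iff.2 fun x _ => Polynomial.X_sub_C_ne_zero x
  · rw [Polynomial.natDegree_prod _ _ fun x _ => Polynomial.X_sub_C_ne_zero x]
    simp only [Polynomial.natDegree_X_sub_C, Finset.sum_const, smul_eq_mul, mul_one]
    rw [← hdg]
    exact hC
  · rw [Polynomial.eval_prod]
    have hy : y ∈ V := by
      rw [← Finset.mem_coe, hV]
      exact orb_self L y
    exact Finset.prod_eq_zero hy (by rw [Polynomial.eval_sub, Polynomial.eval_X,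
      Polynomial.eval_C, sub_self])

private theorem srad_sg (Λ : Subgroup Ωˣ) (S : Finset ℕ) (x : Ωˣ) (hx : x ∈ SRad Λ S) :
    (x : Ω) ∈ SG {y : Ω | ∃ u ∈ Λ, y = ((u : Ωˣ) : Ω)} S := by
  obtain ⟨N, hN, hNS, t, ⟨k, hk, hkt⟩, h⟩ := hx
  refine ⟨N, hN, hNS, (t : Ω), ⟨k, hk, ?_⟩, ⟨_, h, ?_⟩⟩
  · rw [← Units.val_pow_eq_pow_val, hkt, Units.val_one]
  · rw [Units.val_mul, Units.val_pow_eq_pow_val]

private theorem not_dg (Λ : Subgroup Ωˣ) (γ : Ωˣ) (h : ∀ m : ℕ, 1 ≤ m → γ ^ m ∉ Λ) :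
    (γ : Ω) ∉ DG {y : Ω | ∃ u ∈ Λ, y = ((u : Ωˣ) : Ω)} := by
  rintro ⟨n, hn, u, hu, hun⟩
  apply h n hn
  have h1 : γ ^ n = u := by
    apply Units.ext
    rw [Units.val_pow_eq_pow_val, hun]
  rw [h1]
  exact hu

theorem poly_lehmer (Λ : Subgroup Ωˣ) (hΛ : Λ.FG) (S : Finset ℕ) (hS : ∀ p ∈ S, p.Prime) :
    ∃ c : ℝ, 0 < c ∧ ∀ γ : Ωˣ, (∀ m : ℕ, 1 ≤ m → γ ^ m ∉ Λ) →
      c ≤ (dg (N₀ K Λ S) (γ : Ω) : ℝ) ^ (12 * 2 ^ Module.finrank ℤ (Additive Λ) + 2) *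
        absLogHeight₁ (γ : Ω) := by
  classical
  obtain ⟨T, hT⟩ : ∃ T : Set Ω, T = {x : Ω | ∃ u ∈ Λ, x = ((u : Ωˣ) : Ω)} := ⟨_, rfl⟩
  obtain ⟨c, hc, h⟩ := poly_S K Ω Λ hΛ S hS T hT
  refine ⟨c, hc, ?_⟩
  intro γ hγ
  have h3 : N₀ K Λ S ≤ IntermediateField.adjoin K (SG T S) := by
    unfold N₀ fld
    rw [IntermediateField.adjoin_le_iff]
    rintro y ⟨x, hx, rfl⟩
    refine IntermediateField.subset_adjoin K _ ?_
    rw [hT]
    exact srad_sg Λ S x hx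
  exact h (γ : Ω) γ.ne_zero (by rw [hT]; exact not_dg Λ γ hγ) _
    (poldeg_of_dg (N₀ K Λ S) _ h3 _ _ le_rfl)

end Pool.Agent.H33.PS
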