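import Pool.Agent.H36.LF.LhB
import Pool.Agent.H36.LF.DsA
import Pool.Agent.H72.BE.Fro

/-!
# THEOREM PS (MP_187c26_nt), module AzP: a polynomial Lehmer bound over all cyclotomic fields

`az_poly`: `c ≤ d^12 h(α)` for all `n` and all `α`, not a root of unity, of degree at most `d` over `ℚ(ζ_n)`; `c` does not depend on `n`.
`N = K d`, `T = N^3`, `M = N^10`. If `N^12 h ≤ 1/8`, `desc_all` (H36/LF) removes the primes in `[T, M]` from `n`, then `lehmerA` (H36/LF)
with `T` in the place of `N`.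
-/

set_option autoImplicit false

open NumberField IntermediateField

namespace Pool.Agent.H33.PS

open Pool.Agent.H72.BE Pool.Agent.H36.LF

theorem FF_zero {Ω : Type} [Field Ω] [CharZero Ω] (ξ : Ω) (x : Fin 0 → Ω) : FF ξ x = AA ξ := by
  unfold FF AA
  rw [Set.range_eq_empty, Set.union_empty]

theorem dat_zero {Ω : Type} [Field Ω] {n : ℕ} {ξ : Ω} (hn : 1 ≤ n) (hξ : IsPrimitiveRoot ξ n)
    (b m : Fin 0 → ℕ) (x : Fin 0 → Ω) : Dat b m n ξ x where
  two := fun i => i.elim0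
  sqf := fun i => i.elim0
  cb := fun i => i.elim0
  cn := fun i => i.elim0
  hn := hn
  hm := fun i => i.elim0
  prim := hξ
  pow := fun i => i.elim0

private theorem azp_nonneg {E : Type} [Field E] [CharZero E] (a : E) : 0 ≤ absLogHeight₁ a := by
  unfold absLogHeight₁ absMulHeight₁
  refine Real.log_nonneg ?_
  split_ifs with h
  · have h1 : FiniteDimensional ℚ ℚ⟮a⟯ := adjoin.finiteDimensional h
    have h2 : NumberField ℚ⟮a⟯ := {}
    exact Real.one_le_rpow (Height.one_le_mulHeight₁ (AdjoinSimple.gen ℚ a)) (by positivity)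
  · exact le_rfl

private theorem azp_top {Ω : Type} [Field Ω] [CharZero Ω] (ξ : Ω) :
    IntermediateField.adjoin ℚ {ξA ξ} = (⊤ : IntermediateField ℚ (AA ξ)) := by
  rw [eq_top_iff]
  intro z _
  obtain ⟨g, hg⟩ : ∃ g : AA ξ →ₐ[ℚ] Ω, ∀ z, g z = (z : Ω) :=
    ⟨((AA ξ).val : AA ξ →+* Ω).toRatAlgHom, fun z => rfl⟩
  have h1 : IntermediateField.adjoin ℚ {ξ} ≤ (IntermediateField.adjoin ℚ {ξA ξ}).map g := by
    rw [IntermediateField.adjoin_le_iff]
    rintro y rfl
    exact ⟨ξA y, IntermediateField.mem_adjoin_simple_self _ _, hg _⟩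
  obtain ⟨w, hw, hwz⟩ := h1 z.2
  have h2 : w = z := Subtype.ext ((hg w).symm.trans hwz)
  exact h2 ▸ hw

theorem az_poly : ∃ c : ℝ, 0 < c ∧ ∀ (Ω : Type) [Field Ω] [CharZero Ω] [Algebra.IsAlgebraic ℚ Ω]
    [IsAlgClosed Ω] (n d : ℕ) (ξ α : Ω), 1 ≤ n → IsPrimitiveRoot ξ n →
    (minpoly (AA ξ) α).natDegree ≤ d → α ≠ 0 → (∀ k : ℕ, 1 ≤ k → α ^ k ≠ 1) →
    c ≤ (d : ℝ) ^ 12 * absLogHeight₁ α := by
  classical
  obtain ⟨c₀, hc₀, C, hL⟩ := lehmerA
  obtain ⟨K, hK⟩ : ∃ K : ℕ, K = C + 300 := ⟨_, rfl⟩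
  have hK1 : (300 : ℝ) ≤ K := by
    rw [hK]
    push_cast
    have := Nat.cast_nonneg (α := ℝ) C
    linarith
  have hK0 : (0 : ℝ) < K := by linarith
  refine ⟨min c₀ (1 / 8) / (K : ℝ) ^ 12, div_pos (lt_min hc₀ (by norm_num)) (by positivity), ?_⟩
  intro Ω _ _ _ _ n d ξ α hn hξ hd hα0 htor
  have hh0 : 0 ≤ absLogHeight₁ α := azp_nonneg α
  have hαA : IsIntegral (AA ξ) α := (Algebra.IsAlgebraic.isAlgebraic (R := ℚ) α).isIntegral.tower_top
  have hd1 : 1 ≤ d := (minpoly.natDegree_pos hαA).trans_le hd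
  have hd1' : (1 : ℝ) ≤ d := by exact_mod_cast hd1
  obtain ⟨N, hN⟩ : ∃ N : ℕ, N = K * d := ⟨_, rfl⟩
  have hNr : (N : ℝ) = K * d := by rw [hN]; push_cast; ring
  have hNK : (K : ℝ) ≤ N := by rw [hNr]; nlinarith
  have hN1 : (300 : ℝ) ≤ N := hK1.trans hNK
  have hN0 : (0 : ℝ) < N := by linarith
  have hdN : (d : ℝ) ≤ N := by rw [hNr]; nlinarith
  have hdNn : d ≤ N := by exact_mod_cast hdN
  have hNn : 300 ≤ N := by exact_mod_cast hN1
  have hCN : C ≤ N := by
    rw [hN, hK]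
    nlinarith
  rw [div_le_iff₀ (by positivity)]
  have hpow : (d : ℝ) ^ 12 * absLogHeight₁ α * (K : ℝ) ^ 12 = (N : ℝ) ^ 12 * absLogHeight₁ α := by
    rw [hNr, mul_pow]
    ring
  rw [hpow]
  by_cases hcase : 1 / 8 < (N : ℝ) ^ 12 * absLogHeight₁ α
  · exact (min_le_right _ _).trans hcase.le
  · push Not at hcase
    refine (min_le_left _ _).trans ?_
    have hlog : 1 ≤ Real.log N := by
      rw [Real.le_log_iff_exp_le hN0]
      have := Real.exp_one_lt_three
      linarith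
    have hT3 : 3 ≤ N ^ 3 := by
      calc 3 ≤ N := by omega
        _ ≤ N ^ 3 := Nat.le_self_pow (by norm_num) N
    have hdT : d < N ^ 3 := by
      have h1 : N < N ^ 3 := by
        have h2 : N * 1 < N * (N * N) := by
          refine (Nat.mul_lt_mul_left (by omega)).2 ?_
          nlinarith
        calc N = N * 1 := (mul_one N).symm
          _ < N * (N * N) := h2
          _ = N ^ 3 := by ring
      omega
    have hhyp : 4 * ((N ^ 10 : ℕ) : ℝ) * (d : ℝ) * absLogHeight₁ α + 2 * Real.log (2 * (d : ℝ)) <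
        Real.log ((N ^ 3 : ℕ) : ℝ) := by
      have h1 : ((N ^ 10 : ℕ) : ℝ) * (d : ℝ) ≤ (N : ℝ) ^ 12 := by
        push_cast
        calc (N : ℝ) ^ 10 * d ≤ (N : ℝ) ^ 10 * N :=
              mul_le_mul_of_nonneg_left hdN (by positivity)
          _ = (N : ℝ) ^ 11 := by ring
          _ ≤ (N : ℝ) ^ 12 := pow_le_pow_right₀ (by linarith) (by norm_num)
      have h2 := mul_le_mul_of_nonneg_right h1 hh0
      have h3 : 4 * ((N ^ 10 : ℕ) : ℝ) * (d : ℝ) * absLogHeight₁ α ≤ 1 / 2 := by nlinarith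
      have h4 : Real.log (2 * (d : ℝ)) ≤ Real.log N := by
        refine Real.log_le_log (by linarith) ?_
        rw [hNr]
        nlinarith
      have h5 : Real.log ((N ^ 3 : ℕ) : ℝ) = 3 * Real.log N := by
        push_cast
        rw [Real.log_pow]
        norm_num
      rw [h5]
      linarith
    obtain ⟨n', ξ', η, hD', ⟨k', hk', hη⟩, hpr, hmd'⟩ := desc_all
      (dat_zero hn hξ (fun i => i.elim0) (fun i => i.elim0) (fun i => i.elim0))
      (N ^ 3) (N ^ 10) d hT3 hdT α (by rw [FF_zero]; exact hd) hhyp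
    rw [FF_zero] at hmd'
    have hη0 : η ≠ 0 := by
      rintro rfl
      rw [zero_pow (by omega)] at hη
      exact zero_ne_one hη
    have i1 : NumberField (AA ξ') := hD'.nf_A
    have hprim : IsPrimitiveRoot (ξA ξ') n' :=
      IsPrimitiveRoot.of_map_of_injective (f := (AA ξ').val) hD'.prim (AA ξ').val.injective
    have hκA : IsIntegral (AA ξ') (η * α) :=
      (Algebra.IsAlgebraic.isAlgebraic (R := ℚ) (η * α)).isIntegral.tower_top
    obtain ⟨σ, hσ⟩ : ∃ σ : ℕ → (AA ξ' →+* AA ξ'), ∀ q : ℕ, q.Prime → ¬ q ∣ n' →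
        Frob (AA ξ') q (σ q) := by
      refine ⟨fun q => if h : q.Prime ∧ ¬ q ∣ n' then
        Classical.choose (frob_cyc n' hD'.hn (ξA ξ') hprim (azp_top ξ') q h.1 h.2)
          else RingHom.id _, ?_⟩
      intro q hq hqn
      simp only [hq, hqn, not_false_eq_true, and_self, dif_pos]
      exact (Classical.choose_spec (frob_cyc n' hD'.hn (ξA ξ') hprim (azp_top ξ') q hq hqn)).1
    have h1 := hL (AA ξ') Ω σ (η * α) hκA (mul_ne_zero hη0 hα0) (by
      intro k hk h2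
      refine htor (k * k') (Nat.mul_pos hk hk') ?_
      have h4 : (η * α) ^ (k * k') = α ^ (k * k') := by
        rw [mul_pow, mul_comm k k', pow_mul η, hη, one_pow, one_mul]
      rw [← h4, pow_mul, h2, one_pow]) (N ^ 3) (by
      rw [adjoin.finrank hκA]
      omega) (by
      intro q hq hq1 hq2
      refine hσ q hq (hpr q hq hq1 (hq2.trans ?_))
      calc C * (N ^ 3) ^ 3 ≤ N * (N ^ 3) ^ 3 := Nat.mul_le_mul_right _ hCN
        _ = N ^ 10 := by ring)
    rw [height_root η α k' hk' hη] at h1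
    push_cast at h1
    rw [← pow_mul, div_le_iff₀ (by positivity), mul_comm] at h1
    exact h1

end Pool.Agent.H33.PS
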