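import Pool.Agent.H92.SR.DirGen

/-!
# THEOREM PS (MP_187c26_nt), module DirP: the Dirichlet trick with explicit constants

`dirich_poly`: simultaneous approximation with `n ≤ (2/ε)^(2^r)`. `dir_poly`: `dir_gen` of H92/SR/DirGen with an explicit
bound, a power of `κ`.
-/

set_option autoImplicit false
set_option linter.unusedSectionVars false

open NumberField IntermediateField

namespace Pool.Agent.H33.PS

open Pool.Agent.H72.RM Pool.Agent.H72.PB

theorem dirich_poly (r : ℕ) (ε : ℝ) (hε : 0 < ε) (hε1 : ε ≤ 1) : ∃ B : ℕ, 1 ≤ B ∧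
    (B : ℝ) * (2 / ε) ≤ (2 / ε) ^ (2 ^ r) ∧ ∀ x : Fin r → ℝ,
    ∃ n : ℕ, 1 ≤ n ∧ n ≤ B ∧ ∃ l : Fin r → ℤ, ∀ i, |(n : ℝ) * x i - l i| ≤ ε := by
  induction r generalizing ε with
  | zero =>
    refine ⟨1, le_refl _, ?_, fun x => ⟨1, le_refl _, le_refl _, 0, fun i => i.elim0⟩⟩
    rw [Nat.cast_one, one_mul, pow_zero, pow_one]
  | succ r ih =>
    obtain ⟨B₂, hB₂⟩ : ∃ B₂ : ℕ, B₂ = ⌈1 / ε⌉₊ := ⟨_, rfl⟩
    have h1ε : 1 ≤ 1 / ε := by
      rw [le_div_iff₀ hε]
      linarith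
    have hB₂le : 1 / ε ≤ B₂ := by rw [hB₂]; exact Nat.le_ceil _
    have hB₂up : (B₂ : ℝ) ≤ 2 / ε := by
      rw [hB₂]
      have h := (Nat.ceil_lt_add_one (by positivity : 0 ≤ 1 / ε)).le
      refine h.trans ?_
      have : 2 / ε = 1 / ε + 1 / ε := by ring
      rw [this]
      linarith
    have hB₂0 : (0 : ℝ) < B₂ := lt_of_lt_of_le (by positivity) hB₂le
    have hB₂1 : 0 < B₂ := by exact_mod_cast hB₂0
    have hB₂ε : 1 / (B₂ : ℝ) ≤ ε := by
      rw [div_le_iff₀ hB₂0]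
      rw [div_le_iff₀ hε] at hB₂le
      linarith
    have hε' : ε / B₂ ≤ 1 := by
      rw [div_le_one hB₂0]
      have : (1 : ℝ) ≤ B₂ := by exact_mod_cast hB₂1
      linarith
    obtain ⟨B₁, hB₁, hB₁up, h₁⟩ := ih (ε / B₂) (by positivity) hε'
    refine ⟨B₁ * B₂, Nat.mul_pos hB₁ hB₂1, ?_, fun x => ?_⟩
    · have h4 : 2 / (ε / B₂) = 2 / ε * B₂ := by field_simp
      rw [h4] at hB₁up
      have h3 : 2 / ε * B₂ ≤ (2 / ε) ^ 2 := by
        rw [sq]
        exact mul_le_mul_of_nonneg_left hB₂up (by positivity)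
      have h5 : (2 / ε * B₂) ^ (2 ^ r) ≤ ((2 / ε) ^ 2) ^ (2 ^ r) :=
        pow_le_pow_left₀ (by positivity) h3 _
      rw [← pow_mul, ← pow_succ'] at h5
      refine le_trans (le_of_eq ?_) (hB₁up.trans h5)
      push_cast
      ring
    · obtain ⟨n₁, hn₁, hn₁B, l₁, hl₁⟩ := h₁ (fun i => x i.succ)
      obtain ⟨n₂, hn₂, hn₂B, hr⟩ := Real.exists_nat_abs_mul_sub_round_le ((n₁ : ℝ) * x 0) hB₂1
      refine ⟨n₁ * n₂, Nat.mul_pos hn₁ hn₂, Nat.mul_le_mul hn₁B hn₂B,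
        Fin.cons (round ((n₂ : ℝ) * ((n₁ : ℝ) * x 0))) (fun i => (n₂ : ℤ) * l₁ i), ?_⟩
      intro i
      refine Fin.cases ?_ (fun i => ?_) i
      · simp only [Fin.cons_zero]
        have e : ((n₁ * n₂ : ℕ) : ℝ) * x 0 = (n₂ : ℝ) * ((n₁ : ℝ) * x 0) := by push_cast; ring
        rw [e]
        refine hr.trans (le_trans ?_ hB₂ε)
        apply one_div_le_one_div_of_le hB₂0
        linarith
      · simp only [Fin.cons_succ]
        have e : ((n₁ * n₂ : ℕ) : ℝ) * x i.succ - (((n₂ : ℤ) * l₁ i : ℤ) : ℝ) =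
            (n₂ : ℝ) * ((n₁ : ℝ) * x i.succ - l₁ i) := by push_cast; ring
        rw [e, abs_mul, abs_of_nonneg (Nat.cast_nonneg _)]
        have h2 := hl₁ i
        calc (n₂ : ℝ) * |(n₁ : ℝ) * x i.succ - l₁ i| ≤ B₂ * (ε / B₂) := by
              apply mul_le_mul _ h2 (abs_nonneg _) hB₂0.le
              exact_mod_cast hn₂B
          _ = ε := by field_simp

variable {K Ω : Type} [Field K] [NumberField K] [Field Ω] [CharZero Ω] [IsAlgClosed Ω]
  [Algebra K Ω] [IsGalois K Ω] {r : ℕ}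

include K in
private theorem dirP_int (x : Ω) : IsIntegral ℚ x := by
  have h1 : IsIntegral K x := IsGalois.integral K x
  exact isIntegral_trans x h1

private theorem dirP_rep (x : Ω) (hx : IsIntegral ℚ x) :
    ∃ (E : IntermediateField ℚ Ω) (_ : NumberField E) (a : E), (a : Ω) = x ∧
      ∀ c : E, absLogHeight₁ (c : Ω) = Height.logHeight₁ c / Module.finrank ℚ E := by
  have h1 : FiniteDimensional ℚ (IntermediateField.adjoin ℚ {x}) :=
    IntermediateField.adjoin.finiteDimensional hx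
  have h2 : NumberField (IntermediateField.adjoin ℚ {x}) := {}
  refine ⟨IntermediateField.adjoin ℚ {x}, h2, IntermediateField.AdjoinSimple.gen ℚ x, rfl, ?_⟩
  intro c
  exact Pool.Agent.H4.RR.absLogHeight_eq (IntermediateField.adjoin ℚ {x}) Ω
    (IntermediateField.val (IntermediateField.adjoin ℚ {x})).toRingHom c

include K in
private theorem dirP_nonneg (x : Ω) : 0 ≤ absLogHeight₁ x := by
  obtain ⟨E, _, a, ha, h⟩ := dirP_rep x (dirP_int (K := K) x)
  have h1 := h a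
  rw [ha] at h1
  rw [h1]
  exact div_nonneg (Height.zero_le_logHeight₁ a) (Nat.cast_nonneg _)

include K in
private theorem dirP_prod {ι : Type} (s : Finset ι) (f : ι → Ω) :
    absLogHeight₁ (∏ i ∈ s, f i) ≤ ∑ i ∈ s, absLogHeight₁ (f i) := by
  classical
  induction s using Finset.induction_on with
  | empty =>
    have h := absLogHeight_zpow (1 : Ω) 0
    rw [zpow_zero] at h
    simp only [Int.cast_zero, abs_zero, zero_mul] at h
    simp [h]
  | insert a s ha ih =>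
    rw [Finset.prod_insert ha, Finset.sum_insert ha]
    refine (Pool.Agent.H4.RR.absLogHeight_mul_le Ω _ _ (dirP_int (K := K) _)
      (dirP_int (K := K) _)).trans ?_
    linarith

variable (Ω) in
theorem dir_poly (b : Fin r → K) (hb : ∀ i, b i ≠ 0) : ∃ H : ℝ, 1 ≤ H ∧
    ∀ κ : ℝ, 0 < κ → κ ≤ 1 → ∀ P : Ω → Prop,
      (∀ y, P y → ∀ n : ℕ, 1 ≤ n → ∀ l : Fin r → ℤ,
        P ((∏ i, (algebraMap K Ω (b i)) ^ (l i)) * y ^ n)) →
      (∀ x, P x → x ≠ 0 → x ∉ DivG Ω b → κ ≤ absLogHeight₁ x) →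
      ∀ γ y : Ω, γ ∈ DivG Ω b → P y → y ≠ 0 → γ * y ∉ DivG Ω b →
        (κ / (4 * H)) ^ (2 ^ r) ≤ absLogHeight₁ (γ * y) := by
  set β : Fin r → Ω := fun i => algebraMap K Ω (b i) with hβ
  have hβ0 : ∀ i, β i ≠ 0 := by
    intro i
    rw [hβ]
    simp only
    rw [Ne, map_eq_zero]
    exact hb i
  set H : ℝ := ∑ i, absLogHeight₁ (β i) with hH
  have hH0 : 0 ≤ H := Finset.sum_nonneg fun i _ => dirP_nonneg (K := K) (β i)
  refine ⟨H + 1, by linarith, fun κ hκ hκ1 P hP hF γ y hγ hy hy0 hnot => ?_⟩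
  have hε : 0 < κ / (2 * (H + 1)) := by positivity
  have hε1 : κ / (2 * (H + 1)) ≤ 1 := by
    rw [div_le_one (by positivity)]
    linarith
  obtain ⟨B, hB1, hBup, hB⟩ := dirich_poly r (κ / (2 * (H + 1))) hε hε1
  set ε : ℝ := κ / (2 * (H + 1)) with hεdef
  have hεH : ε * H ≤ κ / 2 := by
    rw [hεdef, div_mul_eq_mul_div, div_le_div_iff₀ (by positivity) (by norm_num)]
    nlinarith
  have hB0 : (0 : ℝ) < B := by
    have : 0 < B := hB1
    exact_mod_cast this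
  have hγ' := hγ
  obtain ⟨N, hN1, m, hm⟩ := hγ'
  have hN0 : (0 : ℝ) < N := by
    have : 0 < N := hN1
    exact_mod_cast this
  have hprod0 : ∀ e : Fin r → ℤ, ∏ i, β i ^ e i ≠ 0 := fun e =>
    Finset.prod_ne_zero_iff.2 fun i _ => zpow_ne_zero _ (hβ0 i)
  have hγ0 : γ ≠ 0 := by
    rintro rfl
    rw [zero_pow (by omega)] at hm
    exact hprod0 m hm.symm
  obtain ⟨n, hn1, hnB, l, hl⟩ := hB (fun i => (m i : ℝ) / N)
  set x : Ω := (∏ i, β i ^ l i) * y ^ n with hx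
  have hxF : P x := hP y hy n hn1 l
  have hx0 : x ≠ 0 := mul_ne_zero (hprod0 l) (pow_ne_zero _ hy0)
  have hxk : x ∉ DivG Ω b := by
    intro hxd
    apply hnot
    have h1 : (∏ i, β i ^ (-l i)) ∈ DivG Ω b := ⟨1, le_refl 1, fun i => -l i, pow_one _⟩
    have h2 : (∏ i, β i ^ (-l i)) * (∏ i, β i ^ (l i)) = 1 := by
      rw [← Finset.prod_mul_distrib]
      apply Finset.prod_eq_one
      intro i _
      rw [← zpow_add₀ (hβ0 i), neg_add_cancel, zpow_zero]
    have h3 : y ^ n = x * ∏ i, β i ^ (-l i) := by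
      rw [hx]
      calc y ^ n = ((∏ i, β i ^ (-l i)) * (∏ i, β i ^ (l i))) * y ^ n := by rw [h2, one_mul]
        _ = _ := by ring
    have h4 : y ^ n ∈ DivG Ω b := by
      rw [h3]
      exact div_mul hxd h1
    obtain ⟨N', hN', m', hm'⟩ := h4
    refine div_mul hγ ⟨n * N', Nat.mul_pos hn1 hN', m', ?_⟩
    rw [pow_mul]
    exact hm'
  have hκx := hF x hxF hx0 hxk
  set ρ : Ω := (∏ i, β i ^ l i) / γ ^ n with hρ
  have hxρ : x = (γ * y) ^ n * ρ := by
    rw [hx, hρ, mul_pow]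
    field_simp
  have hρN : ρ ^ N = ∏ i, β i ^ ((N : ℤ) * l i - (n : ℤ) * m i) := by
    have h1 : (γ ^ n) ^ N = ∏ i, β i ^ ((n : ℤ) * m i) := by
      rw [← pow_mul, mul_comm n N, pow_mul, hm, ← Finset.prod_pow]
      apply Finset.prod_congr rfl
      intro i _
      rw [mul_comm (n : ℤ), zpow_mul, zpow_natCast]
    rw [hρ, div_pow, h1, ← Finset.prod_pow, ← Finset.prod_div_distrib]
    apply Finset.prod_congr rfl
    intro i _
    rw [zpow_sub₀ (hβ0 i), mul_comm (N : ℤ), zpow_mul (β i) (l i) (N : ℤ), zpow_natCast]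
  have hρh : absLogHeight₁ ρ ≤ κ / 2 := by
    have h1 : (N : ℝ) * absLogHeight₁ ρ = absLogHeight₁ (ρ ^ N) := by
      rw [Pool.Agent.H4.RR.absLogHeight_pow Ω ρ (dirP_int (K := K) ρ) N]
    have h2 : absLogHeight₁ (ρ ^ N) ≤ (N : ℝ) * (ε * H) := by
      rw [hρN]
      refine (dirP_prod (K := K) Finset.univ _).trans ?_
      rw [hH, Finset.mul_sum, Finset.mul_sum]
      apply Finset.sum_le_sum
      intro i _
      rw [absLogHeight_zpow]
      rw [← mul_assoc]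
      apply mul_le_mul_of_nonneg_right _ (dirP_nonneg (K := K) _)
      have h3 := hl i
      have h4 : (((N : ℤ) * l i - (n : ℤ) * m i : ℤ) : ℝ) =
          -((N : ℝ) * ((n : ℝ) * ((m i : ℝ) / N) - l i)) := by
        push_cast
        field_simp
        ring
      rw [h4, abs_neg, abs_mul, abs_of_pos hN0]
      exact mul_le_mul_of_nonneg_left h3 hN0.le
    have h5 : (N : ℝ) * absLogHeight₁ ρ ≤ (N : ℝ) * (κ / 2) := by
      rw [h1]
      exact h2.trans (mul_le_mul_of_nonneg_left hεH hN0.le)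
    exact le_of_mul_le_mul_left h5 hN0
  have h6 : absLogHeight₁ x ≤ (n : ℝ) * absLogHeight₁ (γ * y) + absLogHeight₁ ρ := by
    rw [hxρ]
    refine (Pool.Agent.H4.RR.absLogHeight_mul_le Ω _ _ (dirP_int (K := K) _)
      (dirP_int (K := K) _)).trans ?_
    rw [Pool.Agent.H4.RR.absLogHeight_pow Ω _ (dirP_int (K := K) _) n]
  have h7 : (n : ℝ) * absLogHeight₁ (γ * y) ≤ B * absLogHeight₁ (γ * y) :=
    mul_le_mul_of_nonneg_right (by exact_mod_cast hnB) (dirP_nonneg (K := K) _)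
  have h8 : κ / 2 ≤ B * absLogHeight₁ (γ * y) := by linarith
  have h9 : 2 / ε = 4 * (H + 1) / κ := by
    rw [hεdef]
    field_simp
    ring
  have hX : 0 < 4 * (H + 1) / κ := by positivity
  rw [h9] at hBup
  have h10 : κ / (4 * (H + 1)) = (4 * (H + 1) / κ)⁻¹ := by rw [inv_div]
  rw [h10, inv_pow]
  have h11 : (B : ℝ) ≤ (4 * (H + 1) / κ) ^ (2 ^ r) / (4 * (H + 1) / κ) := by
    rw [le_div_iff₀ hX]
    exact hBup
  have h12 : κ / 2 * ((4 * (H + 1) / κ)) ≤ (4 * (H + 1) / κ) ^ (2 ^ r) *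
      absLogHeight₁ (γ * y) := by
    have h13 := h8.trans (mul_le_mul_of_nonneg_right h11 (dirP_nonneg (K := K) (γ * y)))
    rw [div_mul_eq_mul_div, le_div_iff₀ hX] at h13
    exact h13
  have h14 : κ / 2 * ((4 * (H + 1) / κ)) = 2 * (H + 1) := by
    field_simp
    ring
  rw [inv_le_iff_one_le_mul₀ (by positivity), mul_comm]
  linarith

end Pool.Agent.H33.PS
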