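import Pool.Agent.H92.SR.Cov
import Pool.Agent.H72.RM.RFa
import Pool.Agent.H72.PB.OrbB
import Pool.Agent.H72.BE.Dat
import Pool.Agent.H11.BE.Lev

/-!
# THEOREM PS (MP_187c26_nt), module Lev: from the level field `K(ζ_n, ζ_R, b_i^(1/R))` to `ℚ(ζ_n)`

`lev`: the degree over `ℚ(ζ_n)` is at most `[K : ℚ] R^(r+1) dg (RF Ω b n R)`. `M = RF Ω b 1 R` is a number field of degree at most
`R^(r+1)` over `K`; `deg_lev` for `M`.
-/

set_option autoImplicit false
set_option linter.unusedSectionVars false

open NumberField IntermediateField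

namespace Pool.Agent.H33.PS

open Pool.Agent.H72.RM Pool.Agent.H72.PB Pool.Agent.H72.BE

private theorem fin_adj {K Ω : Type} [Field K] [Field Ω] [Algebra K Ω] (R : ℕ) (T : Finset Ω)
    (hT : ∀ t ∈ T, IsIntegral K t ∧ (minpoly K t).natDegree ≤ R) :
    FiniteDimensional K (IntermediateField.adjoin K (T : Set Ω)) ∧
      Module.finrank K (IntermediateField.adjoin K (T : Set Ω)) ≤ R ^ T.card := by
  classical
  induction T using Finset.induction_on with
  | empty =>
    rw [Finset.coe_empty, IntermediateField.adjoin_empty]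
    refine ⟨inferInstance, ?_⟩
    rw [IntermediateField.finrank_bot, Finset.card_empty, pow_zero]
  | insert a T ha ih =>
    obtain ⟨h1, h2⟩ := ih fun t ht => hT t (Finset.mem_insert_of_mem ht)
    obtain ⟨h3, h4⟩ := hT a (Finset.mem_insert_self a T)
    have h5 : IntermediateField.adjoin K ((insert a T : Finset Ω) : Set Ω) =
        IntermediateField.adjoin K {a} ⊔ IntermediateField.adjoin K (T : Set Ω) := by
      rw [Finset.coe_insert, Set.insert_eq, IntermediateField.adjoin_union]
    have h6 : FiniteDimensional K K⟮a⟯ := adjoin.finiteDimensional h3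
    rw [h5]
    refine ⟨inferInstance, ?_⟩
    refine (IntermediateField.finrank_sup_le _ _).trans ?_
    rw [Finset.card_insert_of_notMem ha, pow_succ', adjoin.finrank h3]
    exact Nat.mul_le_mul h4 h2

variable {K Ω : Type} [Field K] [NumberField K] [Field Ω] [CharZero Ω] [IsAlgClosed Ω]
  [Algebra K Ω] [IsGalois K Ω] {r : ℕ}

private theorem pow_deg (R : ℕ) (hR : 1 ≤ R) (x : Ω) (a : K) (hx : x ^ R = algebraMap K Ω a) :
    IsIntegral K x ∧ (minpoly K x).natDegree ≤ R := by
  refine ⟨Algebra.IsIntegral.isIntegral x, ?_⟩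
  have h1 : Polynomial.aeval x (Polynomial.X ^ R - Polynomial.C a) = 0 := by
    rw [map_sub, map_pow, Polynomial.aeval_X, Polynomial.aeval_C, hx, sub_self]
  have h2 := minpoly.degree_le_of_ne_zero K x (Polynomial.X_pow_sub_C_ne_zero (by omega) a) h1
  have h3 := Polynomial.natDegree_le_natDegree h2
  rwa [Polynomial.natDegree_X_pow_sub_C] at h3

theorem rf_finrank (b : Fin r → K) (hb : ∀ i, b i ≠ 0) (R : ℕ) (hR : 1 ≤ R) :
    Module.finrank K (RF Ω b 1 R) ≤ R ^ (r + 1) := by
  classical
  have hR0 : NeZero R := ⟨by omega⟩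
  obtain ⟨ζ, hζ⟩ := HasEnoughRootsOfUnity.exists_primitiveRoot Ω R
  have hex : ∀ i, ∃ x : Ω, x ^ R = algebraMap K Ω (b i) := fun i =>
    IsAlgClosed.exists_pow_nat_eq _ (by omega)
  choose β hβ using hex
  obtain ⟨T, hT⟩ : ∃ T : Finset Ω, T = insert ζ (Finset.univ.image β) := ⟨_, rfl⟩
  have hcard : T.card ≤ r + 1 := by
    rw [hT]
    refine (Finset.card_insert_le _ _).trans ?_
    have := Finset.card_image_le (s := (Finset.univ : Finset (Fin r))) (f := β)
    rw [Finset.card_univ, Fintype.card_fin] at this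
    omega
  have hmem : ∀ t ∈ T, IsIntegral K t ∧ (minpoly K t).natDegree ≤ R := by
    intro t ht
    rw [hT, Finset.mem_insert, Finset.mem_image] at ht
    rcases ht with rfl | ⟨i, -, rfl⟩
    · exact pow_deg R hR _ 1 (by rw [hζ.pow_eq_one, map_one])
    · exact pow_deg R hR _ (b i) (hβ i)
  obtain ⟨h1, h2⟩ := fin_adj R T hmem
  have hζT : ζ ∈ IntermediateField.adjoin K (T : Set Ω) :=
    IntermediateField.subset_adjoin K _ (by rw [hT]; exact Finset.mem_coe.2 (Finset.mem_insert_self _ _))
  have hroot : ∀ x : Ω, x ^ R = 1 → x ∈ IntermediateField.adjoin K (T : Set Ω) := by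
    intro x hx
    obtain ⟨i, -, rfl⟩ := hζ.eq_pow_of_pow_eq_one hx
    exact pow_mem hζT i
  have hle : RF Ω b 1 R ≤ IntermediateField.adjoin K (T : Set Ω) := by
    unfold RF
    rw [IntermediateField.adjoin_le_iff]
    rintro x (hx | hx | ⟨i, hx⟩)
    · rw [pow_one] at hx
      rw [hx]
      exact one_mem _
    · exact hroot x hx
    · have hβT : β i ∈ IntermediateField.adjoin K (T : Set Ω) := by
        refine IntermediateField.subset_adjoin K _ ?_
        rw [hT]
        exact Finset.mem_coe.2 (Finset.mem_insert_of_mem (Finset.mem_image_of_mem β (Finset.mem_univ i)))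
      have hβ0 : β i ≠ 0 := by
        intro h0
        have h3 := hβ i
        rw [h0, zero_pow (by omega)] at h3
        exact hb i ((map_eq_zero _).1 h3.symm)
      have h4 : (x / β i) ^ R = 1 := by
        rw [div_pow, hx, hβ i, div_self]
        rw [Ne, map_eq_zero]
        exact hb i
      have h5 : x = (x / β i) * β i := by field_simp
      rw [SetLike.mem_coe, h5]
      exact mul_mem (hroot _ h4) hβT
  have h3 : Module.finrank K (RF Ω b 1 R) ≤ Module.finrank K (IntermediateField.adjoin K (T : Set Ω)) :=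
    IntermediateField.finrank_le_of_le_right hle
  exact h3.trans (h2.trans (Nat.pow_le_pow_right hR hcard))

theorem lev (b : Fin r → K) (hb : ∀ i, b i ≠ 0) (n R : ℕ) (hR : 1 ≤ R) (hn : 1 ≤ n) (ξ : Ω)
    (hξ : IsPrimitiveRoot ξ n) (y : Ω) :
    (minpoly (AA ξ) y).natDegree ≤
      Module.finrank ℚ K * R ^ (r + 1) * dg (RF Ω b n R) y := by
  classical
  obtain ⟨M, hM⟩ : ∃ M : IntermediateField K Ω, M = RF Ω b 1 R := ⟨_, rfl⟩
  have i1 : FiniteDimensional K M := by
    rw [hM]
    exact rf_finite b 1 R le_rfl hR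
  have i2 : NumberField M := NumberField.of_module_finite K M
  have hMd : Module.finrank ℚ M ≤ Module.finrank ℚ K * R ^ (r + 1) := by
    rw [← Module.finrank_mul_finrank ℚ K M]
    refine Nat.mul_le_mul_left _ ?_
    rw [hM]
    exact rf_finrank b hb R hR
  have hfin : FiniteDimensional ℚ (Pool.Agent.H11.BE.fld ξ (fun i : Fin 0 => (i.elim0 : Ω))) := by
    unfold Pool.Agent.H11.BE.fld
    rw [Set.range_eq_empty, Set.union_empty]
    refine adjoin.finiteDimensional ?_
    have h1 : IsIntegral ℤ ξ := hξ.isIntegral (by omega)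
    exact h1.tower_top
  have hlev := Pool.Agent.H11.BE.deg_lev M Ω ξ (fun i : Fin 0 => (i.elim0 : Ω)) hfin y
  have h1 : Pool.Agent.H11.BE.dgr ξ (fun i : Fin 0 => (i.elim0 : Ω)) y =
      (minpoly (AA ξ) y).natDegree := by
    unfold Pool.Agent.H11.BE.dgr Pool.Agent.H11.BE.fld AA
    rw [Set.range_eq_empty, Set.union_empty]
  rw [h1] at hlev
  refine hlev.trans (Nat.mul_le_mul hMd ?_)
  refine (natDegree_le_dg _ _).trans ?_
  refine Set.ncard_le_ncard ?_ (orb_finite (RF Ω b n R) y)
  rintro x ⟨ρ, hρ, rfl⟩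
  refine ⟨ρ.restrictScalars K, fun z hz => ?_, rfl⟩
  have hξfix : ρ ξ = ξ := hρ ξ (subset_adjoin M _ (Or.inl rfl))
  have hgen : ∀ z ∈ RF Ω b n R, (ρ.restrictScalars K) z = z := by
    intro z hz
    unfold RF at hz
    refine adjoin_induction K (p := fun z _ => (ρ.restrictScalars K) z = z) ?_ ?_ ?_ ?_ ?_ hz
    · intro x hx
      have hxM : x ^ R = 1 ∨ (∃ i, x ^ R = algebraMap K Ω (b i)) → ρ x = x := by
        intro h
        have h1 : x ∈ M := by
          rw [hM]
          refine subset_adjoin K _ ?_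
          rcases h with h | h
          · exact Or.inr (Or.inl h)
          · exact Or.inr (Or.inr h)
        exact ρ.commutes ⟨x, h1⟩
      rcases hx with h | h | h
      · have hn0 : NeZero n := ⟨by omega⟩
        obtain ⟨i, -, rfl⟩ := hξ.eq_pow_of_pow_eq_one h
        change ρ (ξ ^ i) = ξ ^ i
        rw [map_pow, hξfix]
      · exact hxM (Or.inl h)
      · exact hxM (Or.inr h)
    · intro c
      exact (ρ.restrictScalars K).commutes c
    · intro a b _ _ ha hb
      rw [map_add, ha, hb]
    · intro a _ ha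
      rw [map_inv₀, ha]
    · intro a b _ _ ha hb
      rw [map_mul, ha, hb]
  exact hgen z hz

end Pool.Agent.H33.PS
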