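import Pool.Agent.H33.PS.AzP
import Pool.Agent.H33.PS.DirP
import Pool.Agent.H33.PS.Lev
import Pool.Agent.H92.SR.STower3
import Pool.Agent.H92.SR.BDeg

/-!
# THEOREM PS (MP_187c26_nt), module BDegP: a polynomial Lehmer bound over `NS Ω b S`

`c ≤ dg (NS Ω b S) w ^ (12 * 2^r + 2) * h(w)` for `w ∉ DivG`. Model: `b_deg` in H92/SR/BDeg. `D = dg (NS Ω b S) w`, `n, N` from `cov`. If
`(A log 3D)^A D h > 1` we are done. Otherwise `s_tower3` (H72/PB): `w^E = γ' y'`, `E dg (RF Ω b n R) y' ≤ D`, `R ≤ (A log 3D)^A`;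
`az_poly` and `lev` for the class `dg (RF Ω b n R) x ≤ D`: `κ = c₁ / (k R^(r+1) D)^12`; `dir_poly`.
-/

set_option autoImplicit false
set_option linter.unusedSectionVars false

open NumberField IntermediateField

namespace Pool.Agent.H33.PS

open Pool.Agent.H72.RM Pool.Agent.H72.PB Pool.Agent.H92.SR Pool.Agent.H72.BE

variable {K Ω : Type} [Field K] [NumberField K] [Field Ω] [CharZero Ω] [IsAlgClosed Ω]
  [Algebra K Ω] [IsGalois K Ω] {r : ℕ}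

private theorem logpow (A k : ℕ) : ∃ C : ℝ, 1 ≤ C ∧ ∀ D : ℝ, 1 ≤ D →
    (A * Real.log (3 * D)) ^ k ≤ C * D := by
  rcases Nat.eq_zero_or_pos k with rfl | hk
  · exact ⟨1, le_rfl, fun D hD => by rw [pow_zero, one_mul]; exact hD⟩
  · refine ⟨max 1 (((A : ℝ) * k) ^ k * 3), le_max_left _ _, fun D hD => ?_⟩
    have hk0 : (0 : ℝ) < k := by exact_mod_cast hk
    have h0 : 0 ≤ Real.log (3 * D) := Real.log_nonneg (by linarith)
    have h1 : Real.log (3 * D) ≤ (3 * D) ^ (1 / (k : ℝ)) * k := by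
      have h2 := Real.log_le_rpow_div (show (0 : ℝ) ≤ 3 * D by linarith)
        (show (0 : ℝ) < 1 / (k : ℝ) by positivity)
      rwa [div_div_eq_mul_div, div_one] at h2
    have h3 : ((3 * D) ^ (1 / (k : ℝ))) ^ k = 3 * D := by
      rw [← Real.rpow_natCast, ← Real.rpow_mul (by linarith), one_div_mul_cancel hk0.ne',
        Real.rpow_one]
    calc ((A : ℝ) * Real.log (3 * D)) ^ k ≤ (A * ((3 * D) ^ (1 / (k : ℝ)) * k)) ^ k :=
          pow_le_pow_left₀ (by positivity) (mul_le_mul_of_nonneg_left h1 (by positivity)) _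
      _ = ((A : ℝ) * k) ^ k * ((3 * D) ^ (1 / (k : ℝ))) ^ k := by rw [← mul_pow]; congr 1; ring
      _ = (((A : ℝ) * k) ^ k * 3) * D := by rw [h3]; ring
      _ ≤ max 1 (((A : ℝ) * k) ^ k * 3) * D :=
          mul_le_mul_of_nonneg_right (le_max_right _ _) (by linarith)

/-- the constants: case of a small height -/
private theorem num2 (k r f : ℕ) (D R c C H h : ℝ) (hk : 1 ≤ k)
    (hD1 : 1 ≤ D) (hR1 : 1 ≤ R) (hR : R ^ ((r + 1) * (12 * f)) ≤ C * D) (hc : 0 < c) (hH : 1 ≤ H)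
    (hh : 0 ≤ h) (hmain : (c / ((k : ℝ) * R ^ (r + 1) * D) ^ 12 / (4 * H)) ^ f ≤ D * h) :
    (c / (4 * H * (k : ℝ) ^ 12)) ^ f ≤ C * (D ^ (12 * f + 2) * h) := by
  have hk0 : (1 : ℝ) ≤ k := by exact_mod_cast hk
  have hRr : 0 < R ^ (r + 1) := by positivity
  have h4 : c / (4 * H * (k : ℝ) ^ 12) =
      (R ^ (r + 1) * D) ^ 12 * (c / ((k : ℝ) * R ^ (r + 1) * D) ^ 12 / (4 * H)) := by
    field_simp
  have h5 : ((R ^ (r + 1) * D) ^ 12) ^ f ≤ C * D * D ^ (12 * f) := by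
    rw [← pow_mul, mul_pow, ← pow_mul]
    exact mul_le_mul_of_nonneg_right hR (by positivity)
  calc (c / (4 * H * (k : ℝ) ^ 12)) ^ f
      = ((R ^ (r + 1) * D) ^ 12) ^ f * (c / ((k : ℝ) * R ^ (r + 1) * D) ^ 12 / (4 * H)) ^ f := by
        rw [h4, mul_pow]
    _ ≤ (C * D * D ^ (12 * f)) * (D * h) := by
        refine mul_le_mul h5 hmain (by positivity) ?_
        refine le_trans (by positivity) h5
    _ = C * (D ^ (12 * f + 2) * h) := by ring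

variable (Ω) in
theorem b_poly (b : Fin r → K) (hb : ∀ i, b i ≠ 0)
    (hind : ∀ N : ℕ, 1 ≤ N → ∀ (m : Fin r → ℤ) (y : K), y ^ N = ∏ i, (b i) ^ (m i) →
      ∀ i, (N : ℤ) ∣ m i) (S : Finset ℕ) (hS : ∀ p ∈ S, p.Prime) :
    ∃ c : ℝ, 0 < c ∧ ∀ w : Ω, w ≠ 0 → w ∉ DivG Ω b →
      c ≤ (dg (NS Ω b S) w : ℝ) ^ (12 * 2 ^ r + 2) * absLogHeight₁ w := by
  classical
  have halgQ : Algebra.IsAlgebraic ℚ Ω := Algebra.IsAlgebraic.trans ℚ K Ω
  obtain ⟨A, hA, HT⟩ := Pool.Agent.H72.PB.s_tower3 (K := K) (Ω := Ω) (b := b) S (fun p hp => by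
    haveI : Fact p.Prime := ⟨hS p hp⟩
    obtain ⟨ι, h₀, J, D⟩ := sx_of (Ω := Ω) p b hb hind
    exact ⟨⟨hS p hp⟩, ι, h₀, J, D⟩)
  obtain ⟨c₁', hc₁', haz'⟩ := az_poly
  obtain ⟨c₁, hc₁, hc₁1, haz⟩ : ∃ c₁ : ℝ, 0 < c₁ ∧ c₁ ≤ 1 ∧ ∀ (n d : ℕ) (ξ α : Ω), 1 ≤ n →
      IsPrimitiveRoot ξ n → (minpoly (AA ξ) α).natDegree ≤ d → α ≠ 0 →
      (∀ k : ℕ, 1 ≤ k → α ^ k ≠ 1) → c₁ ≤ (d : ℝ) ^ 12 * absLogHeight₁ α :=
    ⟨min c₁' 1, lt_min hc₁' one_pos, min_le_right _ _, fun n d ξ α h1 h2 h3 h4 h5 =>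
      (min_le_left _ _).trans (haz' Ω n d ξ α h1 h2 h3 h4 h5)⟩
  obtain ⟨H, hH1, hdir⟩ := dir_poly Ω b hb
  obtain ⟨k, hk⟩ : ∃ k, k = Module.finrank ℚ K := ⟨_, rfl⟩
  have hk1 : 1 ≤ k := by rw [hk]; exact Module.finrank_pos
  obtain ⟨f, hf⟩ : ∃ f : ℕ, f = 2 ^ r := ⟨_, rfl⟩
  have hA1 : (1 : ℝ) ≤ A := by exact_mod_cast hA
  have hk1' : (1 : ℝ) ≤ k := by exact_mod_cast hk1
  obtain ⟨C₁, hC₁, hlog1⟩ := logpow A A
  obtain ⟨C₂, hC₂, hlog2⟩ := logpow A (A * ((r + 1) * (12 * f)))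
  rw [← hf]
  refine ⟨min (1 / C₁) ((c₁ / (4 * H * (k : ℝ) ^ 12)) ^ f / C₂),
    lt_min (by positivity) (by positivity), ?_⟩
  intro w hw0 hwD
  obtain ⟨D, hD⟩ : ∃ D, D = dg (NS Ω b S) w := ⟨_, rfl⟩
  have hD1 : 1 ≤ D := by rw [hD]; exact dg_pos _ _
  have hD1' : (1 : ℝ) ≤ D := by exact_mod_cast hD1
  obtain ⟨n, N, hn, hN, hnS, hNS, hcov⟩ := cov b hb S hS w
  rw [← hD] at hcov ⊢
  have hh0 : 0 ≤ absLogHeight₁ w := ht_nonneg w
  by_cases hcase : 1 < (A * Real.log (3 * D)) ^ A * ((D : ℝ) * absLogHeight₁ w)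
  · refine (min_le_left _ _).trans (le_trans ?_ (mul_le_mul_of_nonneg_right
      (pow_le_pow_right₀ hD1' (by omega : 2 ≤ 12 * f + 2)) hh0))
    rw [div_le_iff₀ (by positivity)]
    have h1 := mul_le_mul_of_nonneg_right (hlog1 D hD1')
      (mul_nonneg (by linarith : (0:ℝ) ≤ D) hh0)
    calc (1 : ℝ) ≤ C₁ * D * (D * absLogHeight₁ w) := hcase.le.trans h1
      _ = (D : ℝ) ^ 2 * absLogHeight₁ w * C₁ := by ring
  · push Not at hcase
    refine (min_le_right _ _).trans ?_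
    rw [div_le_iff₀ (by positivity)]
    obtain ⟨R, hR, hRup, hstep⟩ := HT D hD1
    have hone : (1 : Ω) ∈ GammaS Ω b (S : Set ℕ) :=
      gam_of_pow 1 le_rfl (fun q hq hq1 => absurd (Nat.dvd_one.1 hq1) hq.one_lt.ne') 0 (by simp)
    have hA0 : 0 ≤ (A * Real.log (3 * (D : ℝ))) ^ A := by
      have : 0 ≤ Real.log (3 * (D : ℝ)) := Real.log_nonneg (by linarith)
      positivity
    obtain ⟨E, hE, γ', hγ', y', hy', heq, hEd⟩ := hstep n 1 hn le_rfl hnS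
      (fun q hq h => (hS q hq).one_lt.ne' (Nat.dvd_one.1 h)) N hN hNS 1 w hone hw0
      (by rw [mul_one]; exact hcov) (by
        rw [mul_one, one_mul]
        refine le_trans (mul_le_mul_of_nonneg_left ?_ hA0) hcase
        exact mul_le_mul_of_nonneg_right (by exact_mod_cast hcov) hh0)
    rw [one_mul] at heq
    rw [mul_one, mul_one] at hEd
    have hEd2 := hEd.trans hcov
    have hd1 : 1 ≤ dg (RF Ω b n R) y' := dg_pos _ _
    have hE' : E ≤ D := by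
      have : E ≤ E * dg (RF Ω b n R) y' := Nat.le_mul_of_pos_right _ hd1
      omega
    have hd' : dg (RF Ω b n R) y' ≤ D := by
      have : dg (RF Ω b n R) y' ≤ E * dg (RF Ω b n R) y' := Nat.le_mul_of_pos_left _ hE
      omega
    have hnot : γ' * y' ∉ DivG Ω b := by
      rw [← heq]
      rintro ⟨k, hk, m, hm⟩
      exact hwD ⟨E * k, Nat.mul_pos hE hk, m, by rw [pow_mul]; exact hm⟩
    have hcl : ∀ y, dg (RF Ω b n R) y ≤ D → ∀ n' : ℕ, 1 ≤ n' → ∀ l : Fin r → ℤ,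
        dg (RF Ω b n R) ((∏ i, (algebraMap K Ω (b i)) ^ (l i)) * y ^ n') ≤ D := by
      intro y hy n' _ l
      have hmem : (∏ i, (algebraMap K Ω (b i)) ^ (l i)) ∈ RF Ω b n R := by
        refine prod_mem fun i _ => ?_
        exact zpow_mem ((RF Ω b n R).algebraMap_mem (b i)) (l i)
      have hne0 : (∏ i, (algebraMap K Ω (b i)) ^ (l i)) ≠ 0 := by
        refine Finset.prod_ne_zero_iff.mpr fun i _ => ?_
        refine zpow_ne_zero _ ?_
        rw [Ne, map_eq_zero]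
        exact hb i
      rw [dg_smul hmem hne0]
      exact le_trans (dg_pow_le _ _ _) hy
    have hn0 : NeZero n := ⟨by omega⟩
    obtain ⟨ξ, hξ⟩ := HasEnoughRootsOfUnity.exists_primitiveRoot Ω n
    obtain ⟨d, hd⟩ : ∃ d : ℕ, d = k * R ^ (r + 1) * D := ⟨_, rfl⟩
    have hdr : (d : ℝ) = (k : ℝ) * (R : ℝ) ^ (r + 1) * D := by rw [hd]; push_cast; ring
    have hR1 : (1 : ℝ) ≤ R := by exact_mod_cast hR
    have hd1' : (1 : ℝ) ≤ d := by
      have h1 : 1 ≤ k * R ^ (r + 1) * D :=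
        Nat.mul_pos (Nat.mul_pos hk1 (pow_pos (by omega) _)) hD1
      rw [hd]
      exact_mod_cast h1
    have hκ0 : 0 < c₁ / (d : ℝ) ^ 12 := by positivity
    have hκ1 : c₁ / (d : ℝ) ^ 12 ≤ 1 := by
      rw [div_le_one (by positivity)]
      exact hc₁1.trans (one_le_pow₀ hd1')
    have hkx : ∀ x, dg (RF Ω b n R) x ≤ D → x ≠ 0 → x ∉ DivG Ω b →
        c₁ / (d : ℝ) ^ 12 ≤ absLogHeight₁ x := by
      intro x hx hx0 hxD
      rw [div_le_iff₀ (by positivity), mul_comm]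
      refine haz n d ξ x hn hξ ?_ hx0 ?_
      · refine (lev b hb n R hR hn ξ hξ x).trans ?_
        rw [hd, hk]
        exact Nat.mul_le_mul_left _ hx
      · intro k hk hk1
        exact hxD ⟨k, hk, 0, by rw [hk1]; simp⟩
    have h4 := hdir _ hκ0 hκ1 (fun x => dg (RF Ω b n R) x ≤ D) hcl hkx γ' y' (gam_div hγ') hd' hy' hnot
    rw [← heq, Pool.Agent.H4.RR.absLogHeight_pow Ω _ (int_all K _), ← hf] at h4
    have h5 : (E : ℝ) * absLogHeight₁ w ≤ (D : ℝ) * absLogHeight₁ w := by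
      refine mul_le_mul_of_nonneg_right ?_ hh0
      exact_mod_cast hE'
    have h6 := h4.trans h5
    rw [hdr] at h6
    have hRpow : (R : ℝ) ^ ((r + 1) * (12 * f)) ≤ C₂ * D := by
      refine le_trans (pow_le_pow_left₀ (by linarith) hRup _) ?_
      rw [← pow_mul]
      exact hlog2 D hD1'
    have h7 := num2 k r f D R c₁ C₂ H (absLogHeight₁ w) hk1 hD1' hR1 hRpow hc₁ hH1 hh0 h6
    refine h7.trans (le_of_eq ?_)
    ring

end Pool.Agent.H33.PS
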