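import Pool.Agent.H11.TH.FinC
import Pool.Agent.H33.PS.FinP
import Pool.Agent.H33.TR.Fin

/-!
# A polynomial Lehmer bound for all subvarieties of tori over fields of radicals with finitely many primes

`G = 𝔾_m^n`. Let `K` be a number field, `Λ ⊂ K̄*` finitely generated, `S` a finite set of primes and `R` the group of all `S`-radicals of
`Λ`: all `x` with `x^M t ∈ Λ` for a root of unity `t` and an integer `M ≥ 1` all of whose prime factors lie in `S`.
* `h(α) ≥ c [K(R)(α) : K(R)]^(-C)`, `C = 12 · 2^s + 2`, `s` the rank of `Λ`, for all `α ∈ K̄*` no power of which lies in `Λ`.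
* For all `N`, `d` there is `c > 0`, independent of `n`, with `D μ_ess(V) ≥ c` for all `Γ ≥ Λ^n` and all
  `Γ`-transverse subvarieties `V` of `𝔾_m^n` on which some nonzero sum of `N` terms `g_j x^(m_j)` vanishes, `m_j ≤ D`,
  `g_j` of degree at most `d` over `K(R)`.
* `μ_ess(V) ≥ c ω_L(V)^(-C(n, s))`, `c > 0` depending on `n`, `K`, `Λ`, `S`, for all fields `K ⊂ L ⊂ K(R)`, all groups `Γ ≥ Λ^n` and
  all `Γ`-transverse subvarieties `V ≠ 𝔾_m^n` of any dimension; in particular with `L = K(Γ)` for all groups `Λ^n ≤ Γ ≤ R^n`.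
-/

set_option autoImplicit false
set_option linter.unusedSectionVars false

open MvPolynomial Filter Topology

namespace Pool.Agent.H33.PS.OldPolynomialLehmer

/-- The group of points over the algebraic closure of `K` of the torus `𝔾_m^n`. -/
abbrev Torus (K : Type) [Field K] (n : ℕ) : Type := Fin n → (AlgebraicClosure K)ˣ

section Definitions

variable {K : Type} [Field K] [NumberField K] {n : ℕ}

/-- The coordinate vector of a point of `𝔾_m^n`. -/
def coords (x : Torus K n) : Fin n → AlgebraicClosure K := fun i => (x i : AlgebraicClosure K)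

/-- The canonical height `h_G(x) = ∑ h(x_i)`, with `h` the absolute logarithmic Weil height. -/
noncomputable def height (x : Torus K n) : ℝ := ∑ i, NumberField.absLogHeight₁ (coords x i)

/-- The ideal of all polynomials over the algebraic closure vanishing on `V`. -/
noncomputable def idealOf (V : Set (Torus K n)) :
    Ideal (MvPolynomial (Fin n) (AlgebraicClosure K)) :=
  vanishingIdeal (AlgebraicClosure K) (coords '' V)

/-- `Z` is a Zariski closed subset of `𝔾_m^n` defined over `L`. -/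
def IsClosedOver (L : IntermediateField K (AlgebraicClosure K)) (Z : Set (Torus K n)) : Prop :=
  ∃ J : Ideal (MvPolynomial (Fin n) L), Z = {x | coords x ∈ zeroLocus (AlgebraicClosure K) J}

/-- Subvarieties: irreducible closed subsets (over the algebraic closure). -/
def IsSubvariety (V : Set (Torus K n)) : Prop := IsClosedOver ⊤ V ∧ (idealOf V).IsPrime

/-- All irreducible components of `Z` have dimension `d`. -/
def IsEquidimensional (Z : Set (Torus K n)) (d : ℕ) : Prop :=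
  Z.Nonempty ∧ ∀ P ∈ (idealOf Z).minimalPrimes,
    ringKrullDim (MvPolynomial (Fin n) (AlgebraicClosure K) ⧸ P) = d

/-- The space of functions on `Z` that are restrictions of polynomials of degree at most `m`
in each variable, that is, of global sections of `O(m,...,m)` on `(ℙ^1)^n`. -/
noncomputable def sections (Z : Set (Torus K n)) (m : ℕ) :
    Submodule (AlgebraicClosure K) (Z → AlgebraicClosure K) :=
  (restrictDegree (Fin n) (AlgebraicClosure K) m).map
    (LinearMap.pi fun z : Z => (aeval (coords (z : Torus K n))).toLinearMap)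

/-- `Z`, of pure dimension `d`, has degree `δ` with respect to `O(1,...,1)` on `(ℙ^1)^n`:
its Hilbert function is asymptotic to `δ m^d / d!`. -/
def HasDegree (Z : Set (Torus K n)) (d : ℕ) (δ : ℝ) : Prop :=
  Tendsto (fun m : ℕ => (d.factorial : ℝ) *
    (Module.finrank (AlgebraicClosure K) (sections Z m) : ℝ) / (m : ℝ) ^ d) atTop (𝓝 δ)

/-- `ω = deg(Z)^(1/(n - dim Z))` for some equidimensional Zariski closed `Z ⊊ 𝔾_m^n` defined over `L` and
containing `V`. The obstruction index `ω_L(V)` is the minimum of these `ω`. -/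
def ObstructionValue (L : IntermediateField K (AlgebraicClosure K)) (V : Set (Torus K n))
    (ω : ℝ) : Prop :=
  ∃ (Z : Set (Torus K n)) (d : ℕ) (δ : ℝ), IsClosedOver L Z ∧ Z ≠ Set.univ ∧
    IsEquidimensional Z d ∧ V ⊆ Z ∧ HasDegree Z d δ ∧ ω = δ ^ (1 / ((n : ℝ) - d))

/-- The points of height at most `θ` are Zariski dense in `V`. The essential minimum `μ_ess(V)` is the
infimum of these `θ`. -/
def EssentialBound (V : Set (Torus K n)) (θ : ℝ) : Prop :=
  idealOf {x | x ∈ V ∧ height x ≤ θ} ≤ idealOf V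

/-- The saturation of `Γ`. -/
def sat (Γ : Subgroup (Torus K n)) : Set (Torus K n) := {x | ∃ m : ℕ, 1 ≤ m ∧ x ^ m ∈ Γ}

/-- `V` is `Γ`-transverse: no proper `Γ`-torsion subvariety `B γ`, with `B` a connected algebraic
subgroup and `γ` in the saturation of `Γ`, contains `V`. -/
def IsTransverse (Γ : Subgroup (Torus K n)) (V : Set (Torus K n)) : Prop :=
  ∀ (B : Subgroup (Torus K n)) (γ : Torus K n), IsSubvariety (B : Set (Torus K n)) → γ ∈ sat Γ →
    (fun b => b * γ) '' (B : Set (Torus K n)) ≠ Set.univ →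
    ¬ V ⊆ (fun b => b * γ) '' (B : Set (Torus K n))

/-- The field generated over `K` by the roots of unity and by all `S`-radicals of `Λ`. -/
noncomputable def radicalField (Λ : Subgroup (AlgebraicClosure K)ˣ) (S : Finset ℕ) :
    IntermediateField K (AlgebraicClosure K) :=
  IntermediateField.adjoin K {y | ∃ x : (AlgebraicClosure K)ˣ,
    (∃ M : ℕ, 1 ≤ M ∧ (∀ q : ℕ, q.Prime → q ∣ M → q ∈ S) ∧
      ∃ t : (AlgebraicClosure K)ˣ, (∃ k : ℕ, 1 ≤ k ∧ t ^ k = 1) ∧ x ^ M * t ∈ Λ) ∧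
    y = (x : AlgebraicClosure K)}

/-- `y` has degree at most `d` over `L`. -/
def DegreeLE (L : IntermediateField K (AlgebraicClosure K)) (d : ℕ)
    (y : AlgebraicClosure K) : Prop :=
  ∃ P : Polynomial L, P ≠ 0 ∧ P.natDegree ≤ d ∧ Polynomial.aeval y P = 0

end Definitions

open Pool.Agent.H11.TH in
private theorem sparse (K : Type) [Field K] [NumberField K]
    (Λ : Subgroup (AlgebraicClosure K)ˣ) (hΛ : Λ.FG) (S : Finset ℕ) (N d : ℕ) :
    ∃ c : ℝ, 0 < c ∧ ∀ (n : ℕ) (Γ : Subgroup (Torus K n)),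
      (∀ x : Torus K n, (∀ i, x i ∈ Λ) → x ∈ Γ) →
      ∀ V : Set (Torus K n), IsSubvariety V → IsTransverse Γ V →
      ∀ (D : ℕ) (m : Fin N → Fin n → ℕ) (g : Fin N → AlgebraicClosure K),
      (∀ j i, m j i ≤ D) → (∀ j, DegreeLE (radicalField Λ S) d (g j)) →
      (∑ j, C (g j) * ∏ i, X i ^ m j i) ≠ 0 →
      (∑ j, C (g j) * ∏ i, X i ^ m j i) ∈ idealOf V →
      ∀ θ : ℝ, EssentialBound V θ → c ≤ D * θ := by
  classical
  obtain ⟨c, hc, h⟩ := thm_sparse K Λ hΛ (S.filter Nat.Prime)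
    (fun p hp => (Finset.mem_filter.1 hp).2) N d
  refine ⟨c, hc, ?_⟩
  intro n Γ hΓ V hV htr D m g hm hg hne hmem θ hθ
  have hN : (radicalField Λ S : IntermediateField K (AlgebraicClosure K)) =
      N₀ K Λ (S.filter Nat.Prime) := by
    unfold radicalField N₀ fld SRad
    congr 1
    ext y
    constructor
    · rintro ⟨x, ⟨M, hM, hMS, ht⟩, rfl⟩
      exact ⟨x, ⟨M, hM, fun q hq hqM => Finset.mem_filter.2 ⟨hMS q hq hqM, hq⟩, ht⟩, rfl⟩
    · rintro ⟨x, ⟨M, hM, hMS, ht⟩, rfl⟩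
      exact ⟨x, ⟨M, hM, fun q hq hqM => (Finset.mem_filter.1 (hMS q hq hqM)).1, ht⟩, rfl⟩
  have hterm : ∀ j, term (m j) (g j) = C (g j) * ∏ i, X i ^ m j i := by
    intro j
    unfold term
    rw [monomial_eq]
    congr 1
    rw [Finsupp.prod_fintype _ _ (fun i => pow_zero _)]
    rfl
  have h1 : (∑ j, term (m j) (g j)) = ∑ j, C (g j) * ∏ i, X i ^ m j i :=
    Finset.sum_congr rfl fun j _ => hterm j
  refine h n Γ hΓ V hV.2 ?_ D m g hm ?_ (by rw [h1]; exact hne) (by rw [h1]; exact hmem) θ hθ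
  · intro B γ hB1 hB2 hγ hne' hsub
    exact htr B γ ⟨hB1, hB2⟩ hγ hne' hsub
  · intro j
    obtain ⟨P, hP0, hPd, hP⟩ := hg j
    rw [← hN]
    refine (Pool.Agent.H72.PB.dg_le_of_poly (P.map (algebraMap _ (AlgebraicClosure K)))
      ?_ ?_ ?_).trans ?_
    · rw [Ne, Polynomial.map_eq_zero]
      exact hP0
    · intro i
      rw [Polynomial.coeff_map]
      exact (P.coeff i).2
    · rw [Polynomial.eval_map_algebraMap]
      exact hP
    · rw [Polynomial.natDegree_map]
      exact hPd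

open Pool.Agent.H11.TH in
private theorem field_eq (K : Type) [Field K] [NumberField K]
    (Λ : Subgroup (AlgebraicClosure K)ˣ) (S : Finset ℕ) :
    (radicalField Λ S : IntermediateField K (AlgebraicClosure K)) =
      N₀ K Λ (S.filter Nat.Prime) := by
  unfold radicalField N₀ fld SRad
  congr 1
  ext y
  constructor
  · rintro ⟨x, ⟨M, hM, hMS, ht⟩, rfl⟩
    exact ⟨x, ⟨M, hM, fun q hq hqM => Finset.mem_filter.2 ⟨hMS q hq hqM, hq⟩, ht⟩, rfl⟩
  · rintro ⟨x, ⟨M, hM, hMS, ht⟩, rfl⟩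
    exact ⟨x, ⟨M, hM, fun q hq hqM => (Finset.mem_filter.1 (hMS q hq hqM)).1, ht⟩, rfl⟩

private theorem dg_le {K : Type} [Field K] [NumberField K]
    (L : IntermediateField K (AlgebraicClosure K)) (d : ℕ) (y : AlgebraicClosure K)
    (h : DegreeLE L d y) : Pool.Agent.H72.PB.dg L y ≤ d := by
  obtain ⟨P, hP0, hPd, hP⟩ := h
  refine (Pool.Agent.H72.PB.dg_le_of_poly (P.map (algebraMap _ (AlgebraicClosure K)))
    ?_ ?_ ?_).trans ?_
  · rw [Ne, Polynomial.map_eq_zero]
    exact hP0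
  · intro i
    rw [Polynomial.coeff_map]
    exact (P.coeff i).2
  · rw [Polynomial.eval_map_algebraMap]
    exact hP
  · rw [Polynomial.natDegree_map]
    exact hPd

/-- The rank of the abelian group `Λ`. -/
noncomputable def rank {K : Type} [Field K] (Λ : Subgroup (AlgebraicClosure K)ˣ) : ℕ :=
  Module.finrank ℤ (Additive Λ)

/-- The bound for elements. -/
def ElementBound {K : Type} [Field K] [NumberField K] (Λ : Subgroup (AlgebraicClosure K)ˣ)
    (S : Finset ℕ) (c : ℝ) : Prop :=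
  ∀ (α : (AlgebraicClosure K)ˣ) (d : ℕ), (∀ m : ℕ, 1 ≤ m → α ^ m ∉ Λ) →
    DegreeLE (radicalField Λ S) d (α : AlgebraicClosure K) →
    c ≤ (d : ℝ) ^ (12 * 2 ^ rank Λ + 2) * NumberField.absLogHeight₁ (α : AlgebraicClosure K)

/-- The bound for subvarieties on which a sum of `N` terms vanishes. -/
def SparseBound {K : Type} [Field K] [NumberField K] (Λ : Subgroup (AlgebraicClosure K)ˣ)
    (S : Finset ℕ) (N d : ℕ) (c : ℝ) : Prop :=
  ∀ (n : ℕ) (Γ : Subgroup (Torus K n)), (∀ x : Torus K n, (∀ i, x i ∈ Λ) → x ∈ Γ) →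
    ∀ V : Set (Torus K n), IsSubvariety V → IsTransverse Γ V →
    ∀ (D : ℕ) (m : Fin N → Fin n → ℕ) (g : Fin N → AlgebraicClosure K),
    (∀ j i, m j i ≤ D) → (∀ j, DegreeLE (radicalField Λ S) d (g j)) →
    (∑ j, MvPolynomial.C (g j) * ∏ i, X i ^ m j i) ≠ 0 →
    (∑ j, MvPolynomial.C (g j) * ∏ i, X i ^ m j i) ∈ idealOf V →
    ∀ θ : ℝ, EssentialBound V θ → c ≤ D * θ

/-- The bound for all subvarieties of `𝔾_m^n`, with the exponent `C`. -/
def VarietyBound {K : Type} [Field K] [NumberField K] (Λ : Subgroup (AlgebraicClosure K)ˣ)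
    (S : Finset ℕ) (n C : ℕ) (c : ℝ) : Prop :=
  ∀ L : IntermediateField K (AlgebraicClosure K), L ≤ radicalField Λ S →
    ∀ Γ : Subgroup (Torus K n), (∀ x : Torus K n, (∀ i, x i ∈ Λ) → x ∈ Γ) →
    ∀ V : Set (Torus K n), IsSubvariety V → IsTransverse Γ V →
    ∀ ω : ℝ, ObstructionValue L V ω → ∀ θ : ℝ, EssentialBound V θ → c ≤ ω ^ C * θ

/-- **A polynomial Lehmer bound for all subvarieties of tori over fields of radicals.** For a finitely generated group `Λ` of rank `s`, a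
finite set of primes `S` and the field `K(R)` generated by all `S`-radicals of `Λ`: the height outside the saturation of `Λ` is at least
`c d^(-C)`, `d` the degree over `K(R)`, `C = 12 · 2^s + 2`, and the essential minimum of `Γ`-transverse subvarieties `V` of
`𝔾_m^n`, `Γ ≥ Λ^n`, is at least `c ω_L(V)^(-C n s)` for all fields `L ⊂ K(R)`. -/
theorem result : ∃ C : ℕ → ℕ → ℕ, ∀ (K : Type) [Field K] [NumberField K]
      (Λ : Subgroup (AlgebraicClosure K)ˣ), Λ.FG → ∀ S : Finset ℕ,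
    (∃ c : ℝ, 0 < c ∧ ElementBound Λ S c) ∧
    (∀ N d : ℕ, ∃ c : ℝ, 0 < c ∧ SparseBound Λ S N d c) ∧
    ∀ n : ℕ, ∃ c : ℝ, 0 < c ∧ VarietyBound Λ S n (C n (rank Λ)) c := by
  refine ⟨fun n s => n * (Pool.Agent.H33.TR.cst n * (12 * 2 ^ s + 2 + 1)),
    fun K _ _ Λ hΛ S => ?_⟩
  obtain ⟨c, hc, h⟩ := Pool.Agent.H33.PS.poly_lehmer (K := K) Λ hΛ (S.filter Nat.Prime)
    (fun p hp => (Finset.mem_filter.1 hp).2)
  refine ⟨⟨c, hc, ?_⟩, fun N d => sparse K Λ hΛ S N d, fun n =>
    ⟨min 1 c / ((Pool.Agent.H33.TR.cst n : ℝ) + 1) ^ (12 * 2 ^ rank Λ + 2 + 1), by positivity, ?_⟩⟩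
  · intro α d hα hd
    have h1 := dg_le _ d _ hd
    rw [field_eq] at h1
    refine (h α hα).trans (mul_le_mul_of_nonneg_right ?_ (Pool.Agent.H72.PB.ht_nonneg _))
    exact pow_le_pow_left₀ (Nat.cast_nonneg _) (by exact_mod_cast h1) _
  · intro L hL Γ hΓ V hV htr ω hω θ hθ
    obtain ⟨Z, d', δ, hZ, hZne, hZd, hVZ, hZδ, rfl⟩ := hω
    rw [field_eq] at hL
    refine (Pool.Agent.H33.TR.tr_B K n (12 * 2 ^ rank Λ + 2) c Λ L ?_ Γ hΓ V hV.2 ?_ Z d' δ _ hZ
      hZne hZd hZδ hVZ le_rfl θ hθ).2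
    · intro γ hγ
      refine (h γ hγ).trans (mul_le_mul_of_nonneg_right ?_ (Pool.Agent.H72.PB.ht_nonneg _))
      refine pow_le_pow_left₀ (Nat.cast_nonneg _) ?_ _
      exact_mod_cast Pool.Agent.H72.PB.dg_mono hL (γ : AlgebraicClosure K)
    · intro B γ hB1 hB2 hγ hne hsub
      exact htr B γ ⟨hB1, hB2⟩ hγ hne hsub

end Pool.Agent.H33.PS.OldPolynomialLehmer
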